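import Pool.Agent.LE.StmtsQZ
import Pool.Agent.Helper45_LQF.YTU

/-!
# XTU: the part of `Ξ`
-/

set_option autoImplicit false

open MeasureTheory ProbabilityTheory Function Filter

open scoped ENNReal BigOperators Topology NNReal ComplexOrder Matrix

noncomputable section

namespace Pool.Agent.LE.QZ.H21

open Pool.Agent.Anderson hiding box mem_box card_box
open Pool.Agent.Loc Pool.Agent.Mob Pool.Agent.Helper54.Bal
  Pool.Agent.Helper96.EXP Pool.Agent.BED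
open Pool.Agent.LE.MN Pool.Agent.LE.CL Pool.Agent.LE.IR Pool.Agent.LE.QD Pool.Agent.LE.QF
open Pool.Agent.LE.QF.H45

theorem xtu (ytj : YtjStmt) (jal : JalStmt) : XtuStmt := by
  intro ι _ _ q X _ _ F v e g τ ε ε₁ ν n hτ hε hε₁ hν hn hF he hg hg'
  obtain ⟨g₁, l₁, hJ, hl⟩ := ytj ι q X F v _ g n ν hF hn hν hg hg'
  have hc := (jal ι ℝ q).1 ((ε₁ ^ (2 * n))⁻¹)
  have hm := ((jal ι ℝ q).2.2.1 _ _ _ _ _ _ _ _ hJ hc).2.2
  have hc0 : 0 < (ε₁ ^ (2 * n))⁻¹ := by positivity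
  refine ⟨_, _, by simpa only [div_eq_mul_inv] using hm, ?_⟩
  set P : Matrix X X ℂ := v * vᴴ with hPdef
  have hP : P.IsHermitian := Matrix.isHermitian_mul_conjTranspose_self v
  obtain ⟨u, lam, hu, h1, htr⟩ := tr_basis hP
  -- the eigenvalues
  have hvu : ∀ i, n2 (vᴴ *ᵥ u i) = lam i := by
    intro i
    have h := dot_self (vᴴ *ᵥ u i)
    have h2 : star (vᴴ *ᵥ u i) ⬝ᵥ (vᴴ *ᵥ u i) = star (u i) ⬝ᵥ (P *ᵥ u i) := by
      rw [Matrix.star_mulVec, Matrix.conjTranspose_conjTranspose, ← Matrix.dotProduct_mulVec,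
        Matrix.mulVec_mulVec]
    rw [h2, hu i, dotProduct_smul, dot_self, h1 i] at h
    have h3 : ((lam i : ℝ) : ℂ) = ((n2 (vᴴ *ᵥ u i) : ℝ) : ℂ) := by
      rw [← h]
      simp
    exact_mod_cast h3.symm
  have hlam : ∀ i, 0 ≤ lam i := fun i => by
    rw [← hvu i]
    exact n2_nonneg _
  have htP : ∀ (A : Matrix X X ℂ) (m : ℕ),
      Matrix.trace (A * P ^ m) = ∑ i, ((lam i ^ m : ℝ) : ℂ) * (star (u i) ⬝ᵥ (A *ᵥ u i)) := by
    intro A m
    rw [htr]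
    apply Finset.sum_congr rfl
    intro i _
    rw [← Matrix.mulVec_mulVec, pow_eig (hu i), Matrix.mulVec_smul, dotProduct_smul, smul_eq_mul]
  have htp : ∀ m : ℕ, (Matrix.trace (P ^ m)).re = ∑ i, lam i ^ m := by
    intro m
    have h := htP 1 m
    rw [Matrix.one_mul] at h
    rw [h, Complex.re_sum]
    apply Finset.sum_congr rfl
    intro i _
    rw [Matrix.one_mulVec, dot_self, h1 i, Complex.re_ofReal_mul]
    simp
  -- the drift
  have hd2 : (Matrix.trace (e * vᴴ * P ^ (n - 1))).re ≤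
      ∑ i, lam i ^ (n - 1) * (ε * Real.sqrt (lam i)) := by
    rw [htP, Complex.re_sum]
    apply Finset.sum_le_sum
    intro i _
    rw [Complex.re_ofReal_mul]
    refine mul_le_mul_of_nonneg_left ?_ (pow_nonneg (hlam i) _)
    refine (Complex.re_le_norm _).trans ((dot_le _ _).trans ?_)
    rw [h1 i, Real.sqrt_one, one_mul, ← Matrix.mulVec_mulVec]
    have h3 := he (vᴴ *ᵥ u i)
    rw [hvu i] at h3
    calc Real.sqrt (n2 (e *ᵥ (vᴴ *ᵥ u i))) ≤ Real.sqrt (ε ^ 2 * lam i) := Real.sqrt_le_sqrt h3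
      _ = ε * Real.sqrt (lam i) := by
        rw [Real.sqrt_mul (sq_nonneg ε), Real.sqrt_sq hε]
  have hsplit : (Matrix.trace (P ^ (n - 1) * (-(((1 / τ : ℝ) : ℂ) • v) + e) * vᴴ)).re =
      -(1 / τ) * (∑ i, lam i ^ n) + (Matrix.trace (e * vᴴ * P ^ (n - 1))).re := by
    have e1 : P ^ (n - 1) * (-(((1 / τ : ℝ) : ℂ) • v) + e) * vᴴ =
        -(((1 / τ : ℝ) : ℂ) • (P ^ (n - 1) * P)) + P ^ (n - 1) * (e * vᴴ) := by
      rw [hPdef]
      simp only [Matrix.mul_add, Matrix.add_mul, Matrix.mul_neg, Matrix.neg_mul,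
        Matrix.mul_smul, Matrix.smul_mul, Matrix.mul_assoc]
    have e2 : P ^ (n - 1) * P = P ^ n := by
      rw [← pow_succ]
      congr 1
      omega
    rw [e1, Matrix.trace_add, Matrix.trace_neg, Matrix.trace_smul, e2,
      Matrix.trace_mul_comm (P ^ (n - 1)) (e * vᴴ), Complex.add_re, Complex.neg_re, smul_eq_mul,
      Complex.re_ofReal_mul, htp]
    ring
  rw [hsplit, htp] at hl
  have hl2 : l₁ ≤ 2 * n * ∑ i, lam i ^ (n - 1) * (ε * Real.sqrt (lam i)) +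
      n * (2 * n - 1) * ν * ∑ i, lam i ^ (n - 1) := by
    refine hl.trans ?_
    have h3 : 0 ≤ (1 / τ) * (∑ i, lam i ^ n) := by
      have : 0 < 1 / τ := by positivity
      exact mul_nonneg this.le (Finset.sum_nonneg fun i _ => pow_nonneg (hlam i) _)
    have h4 : -(1 / τ) * (∑ i, lam i ^ n) +
        (Matrix.trace (e * vᴴ * P ^ (n - 1))).re ≤
        ∑ i, lam i ^ (n - 1) * (ε * Real.sqrt (lam i)) := by linarith
    have h5 : (0 : ℝ) ≤ 2 * n := by positivity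
    have := mul_le_mul_of_nonneg_left h4 h5
    linarith
  -- scaling
  have hn1 : (1 : ℝ) ≤ n := by exact_mod_cast hn
  have hscale : ∀ i, ∃ x : ℝ, 0 ≤ x ∧ lam i = (x * ε₁) ^ 2 := by
    intro i
    refine ⟨Real.sqrt (lam i) / ε₁, by positivity, ?_⟩
    rw [div_mul_cancel₀ _ hε₁.ne', Real.sq_sqrt (hlam i)]
  choose x hx0 hx using hscale
  have hsq : ∀ i, Real.sqrt (lam i) = x i * ε₁ := fun i => by
    rw [hx i, Real.sqrt_sq (mul_nonneg (hx0 i) hε₁.le)]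
  obtain ⟨m, rfl⟩ : ∃ m, n = m + 1 := ⟨n - 1, by omega⟩
  have i1 : ∀ i, lam i ^ (m + 1) * (ε₁ ^ (2 * (m + 1)))⁻¹ = x i ^ (2 * (m + 1)) := by
    intro i
    rw [hx i, ← pow_mul, mul_pow, mul_assoc, mul_inv_cancel₀ (by positivity), mul_one]
  have i2 : ∀ i, lam i ^ (m + 1 - 1) * (ε * Real.sqrt (lam i)) * (ε₁ ^ (2 * (m + 1)))⁻¹ =
      ε / ε₁ * x i ^ (2 * (m + 1) - 1) := by
    intro i
    rw [hsq i, hx i]
    have e1 : m + 1 - 1 = m := by omega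
    have e2 : 2 * (m + 1) - 1 = 2 * m + 1 := by omega
    rw [e1, e2, ← pow_mul]
    field_simp
    ring
  have i3 : ∀ i, lam i ^ (m + 1 - 1) * (ε₁ ^ (2 * (m + 1)))⁻¹ =
      1 / ε₁ ^ 2 * x i ^ (2 * (m + 1) - 2) := by
    intro i
    rw [hx i]
    have e1 : m + 1 - 1 = m := by omega
    have e2 : 2 * (m + 1) - 2 = 2 * m := by omega
    rw [e1, e2, ← pow_mul]
    field_simp
    ring
  set S : ℝ := ∑ i, (x i ^ (2 * (m + 1)) + (1 / 4) ^ (m + 1)) with hS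
  have hS0 : 0 ≤ S := Finset.sum_nonneg fun i _ => by
    have := hx0 i
    positivity
  have s1 : (Matrix.trace (P ^ (m + 1))).re / ε₁ ^ (2 * (m + 1)) +
      Fintype.card X * (1 / 4) ^ (m + 1) = S := by
    rw [div_eq_mul_inv, htp, Finset.sum_mul, hS, Finset.sum_add_distrib]
    congr 1
    · exact Finset.sum_congr rfl fun i _ => i1 i
    · rw [Finset.sum_const, Finset.card_univ, nsmul_eq_mul]
  have s2 : (∑ i, lam i ^ (m + 1 - 1) * (ε * Real.sqrt (lam i))) * (ε₁ ^ (2 * (m + 1)))⁻¹ ≤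
      ε / ε₁ * (2 * S) := by
    rw [Finset.sum_mul, hS, Finset.mul_sum, Finset.mul_sum]
    apply Finset.sum_le_sum
    intro i _
    rw [i2 i]
    exact mul_le_mul_of_nonneg_left (pow_two_sub (hx0 i) hn).1 (by positivity)
  have s3 : (∑ i, lam i ^ (m + 1 - 1)) * (ε₁ ^ (2 * (m + 1)))⁻¹ ≤ 1 / ε₁ ^ 2 * (4 * S) := by
    rw [Finset.sum_mul, hS, Finset.mul_sum, Finset.mul_sum]
    apply Finset.sum_le_sum
    intro i _
    rw [i3 i]
    exact mul_le_mul_of_nonneg_left (pow_two_sub (hx0 i) hn).2 (by positivity)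
  have hl3 := mul_le_mul_of_nonneg_right hl2 hc0.le
  set c : ℝ := (ε₁ ^ (2 * (m + 1)))⁻¹
  set T1 : ℝ := ∑ i, lam i ^ (m + 1 - 1) * (ε * Real.sqrt (lam i))
  set T2 : ℝ := ∑ i, lam i ^ (m + 1 - 1)
  rw [s1]
  set k : ℝ := ((m + 1 : ℕ) : ℝ) with hk
  have hk0 : 0 ≤ k := by positivity
  have b1 : 2 * k * (T1 * c) ≤ 2 * k * (ε / ε₁ * (2 * S)) :=
    mul_le_mul_of_nonneg_left s2 (by positivity)
  have b2 : k * (2 * k - 1) * ν * (T2 * c) ≤ k * (2 * k - 1) * ν * (1 / ε₁ ^ 2 * (4 * S)) := by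
    refine mul_le_mul_of_nonneg_left s3 ?_
    have : 0 ≤ 2 * k - 1 := by linarith
    positivity
  have b3 : k * (2 * k - 1) * ν * (1 / ε₁ ^ 2 * (4 * S)) ≤
      8 * k ^ 2 * ν / ε₁ ^ 2 * S := by
    have e1 : 8 * k ^ 2 * ν / ε₁ ^ 2 * S - k * (2 * k - 1) * ν * (1 / ε₁ ^ 2 * (4 * S)) =
        4 * k * ν * (1 / ε₁ ^ 2) * S := by ring
    have : 0 ≤ 4 * k * ν * (1 / ε₁ ^ 2) * S := by positivity
    linarith
  have e0 : ∀ A : ℝ, A * 0 + l₁ * c + ∑ _c : ι, g₁ _c * 0 = l₁ * c := by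
    intro A
    simp
  rw [e0]
  calc l₁ * c ≤ (2 * k * T1 + k * (2 * k - 1) * ν * T2) * c := hl3
    _ = 2 * k * (T1 * c) + k * (2 * k - 1) * ν * (T2 * c) := by ring
    _ ≤ 2 * k * (ε / ε₁ * (2 * S)) + 8 * k ^ 2 * ν / ε₁ ^ 2 * S := by linarith
    _ = (4 * k * ε / ε₁ + 8 * k ^ 2 * ν / ε₁ ^ 2) * S := by ring

end Pool.Agent.LE.QZ.H21
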